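import Pool.Agent.J4H76.TW.C10
import Pool.Agent.J4H17.TW.Do9

/-!
# The Hall–Lang conjecture for almost all quadratic twists of a curve with exactly one rational
point of order two

`f(x) = x³ + a x + b` has the integral root `e`; the other two roots are the roots of
`x² + e x + (e² + a)`, whose discriminant is `-(3 e² + 4 a)`. That this number is not a square
says that `y² = f(x)` has exactly one rational point of order two (and implies that the curve is
nonsingular). `y² = x³ + a D² x + b D³` is the quadratic twist by `D`.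
-/

set_option autoImplicit false

/-- There is an absolute exponent `M` such that for every curve `y² = x³ + a x + b` with exactly
one rational point `(e, 0)` of order two, all integral points `(x, y)` of the twist by `D` satisfy
`max (|x|, |y|) ≤ |D| ^ M`, for all nonzero integers `D` with `|D| ≤ N` except
`O(N / (log N) ^ (1 / 1000))` of them. -/
theorem Pool.Agent.Results.MP_a1107e_nt.AlmostAllQuadraticTwists.result :
    ∃ M : ℕ, ∀ a b e : ℤ, e ^ 3 + a * e + b = 0 → ¬ IsSquare (-(3 * e ^ 2 + 4 * a)) →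
      ∃ C : ℝ, ∀ N : ℕ, 3 ≤ N →
        ({D : ℤ | D ≠ 0 ∧ |D| ≤ N ∧ ∃ x y : ℤ,
          y ^ 2 = x ^ 3 + a * D ^ 2 * x + b * D ^ 3 ∧ |D| ^ M < max |x| |y|}.ncard : ℝ) ≤
        C * N / Real.log N ^ (1 / 1000 : ℝ) := by
  classical
  obtain ⟨M, hM⟩ := Pool.Agent.J4H76.TW.final_all Pool.Agent.J4H17.TW.doS
  refine ⟨M, ?_⟩
  intro a b e he hns
  obtain ⟨C, hC0, hC⟩ := hM a b e he hns
  refine ⟨C, ?_⟩
  intro N hN
  have hNR : (3 : ℝ) ≤ N := by exact_mod_cast hN
  have hlp : 0 < Real.log N := Real.log_pos (by linarith)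
  obtain ⟨S, hS⟩ : ∃ S : Set ℤ, S = {D : ℤ | D ≠ 0 ∧ |D| ≤ N ∧ ∃ x y : ℤ,
    y ^ 2 = x ^ 3 + a * D ^ 2 * x + b * D ^ 3 ∧ |D| ^ M < max |x| |y|} := ⟨_, rfl⟩
  rw [← hS]
  have hfin : S.Finite := by
    apply (Set.finite_Icc (-(N : ℤ)) N).subset
    intro D hD
    rw [hS] at hD
    exact abs_le.1 hD.2.1
  rw [Set.ncard_eq_toFinset_card S hfin]
  have h1 := hC N hN hfin.toFinset (by
    intro D hD
    rw [Set.Finite.mem_toFinset, hS] at hD
    exact hD)
  refine h1.trans (le_of_eq ?_)
  rw [Real.rpow_neg hlp.le]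
  ring
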