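import Pool.Agent.J4H76.HB.N11

/-!
# Almost all curves with `max |A| |B| ≤ H` have no integral points up to an exponential height

The Hall-Lang conjecture bounds the integral points of all elliptic curves `y ^ 2 = x ^ 3 + A x + B`
by a fixed power of `max |A| |B|`. Here the curves are ordered by this very quantity, and more
generally they are taken from the boxes `|A| ≤ U`, `|B| ≤ V` with `U ≤ V ≤ U ^ (3 / 2)`; the case
`U = V = H` is the ordering by `max |A| |B| ≤ H`. All but `M V U ^ (1 - 1 / 60000)` of the (about
`4 U V`) curves of the box have no integral point `(x, y)` with `|x| ≤ exp (U ^ (1 / 6400))` at all.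
So a failure of the conjecture, for whatever constants, on one of the other curves needs a point
beyond this exponential height.

(The ordering by the usual height, `|A| ≤ R ^ 2`, `|B| ≤ R ^ 3`, is the edge `V = U ^ (3 / 2)` of
this range. A bound for the number of the exceptional curves of that box says nothing on the
curves of the box `|A| ≤ H`, `|B| ≤ H`.)

Proof: an integral point gives a binary quartic form `(a, b, c, d, e)` with coefficients of size
about `U ^ (1 / 2)`, reduced at the scale of the point, which represents `1` at a large vector, with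
invariants `-4 A`, `-4 B`. For given `a, b, c` the condition `|B| ≤ V` confines `(d, e)` to a
neighbourhood of a parabola. The neighbourhood is covered by slanted segments; on the lattice points
of a segment the determinant method gives a pencil of forms, and a polynomial which is not a square
but takes square values too often. The forms for which this does not apply are counted directly.
-/

set_option autoImplicit false

namespace Pool.Agent.Results.MP_a1107e_nt.BoxesOfCurves

/-- There is a constant `M` such that for all real `1 ≤ U ≤ V ≤ U ^ (3 / 2)` at most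
`M V U ^ (1 - 1 / 60000)` of the pairs of integers `(A, B)` with `|A| ≤ U` and `|B| ≤ V` have the
property that `y ^ 2 = x ^ 3 + A x + B` has an integral solution `(x, y)` with
`|x| ≤ exp (U ^ (1 / 6400))`. -/
theorem result : ∃ M : ℝ, ∀ U V : ℝ, 1 ≤ U → U ≤ V → V ≤ U ^ ((3 : ℝ) / 2) →
    {P : ℤ × ℤ | |(P.1 : ℝ)| ≤ U ∧ |(P.2 : ℝ)| ≤ V ∧
      ∃ x y : ℤ, y ^ 2 = x ^ 3 + P.1 * x + P.2 ∧
        |(x : ℝ)| ≤ Real.exp (U ^ ((1 : ℝ) / 6400))}.Finite ∧
    ({P : ℤ × ℤ | |(P.1 : ℝ)| ≤ U ∧ |(P.2 : ℝ)| ≤ V ∧
      ∃ x y : ℤ, y ^ 2 = x ^ 3 + P.1 * x + P.2 ∧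
        |(x : ℝ)| ≤ Real.exp (U ^ ((1 : ℝ) / 6400))}.ncard : ℝ) ≤
      M * V * U ^ (1 - (1 : ℝ) / 60000) :=
  Pool.Agent.J4H76.HB.main3

end Pool.Agent.Results.MP_a1107e_nt.BoxesOfCurves
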