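import Mathlib
import Pool.Agent.J4H90.HL.Long

/-! # The Hall-Lang conjecture for points with small digit sums: all curves with few digits

All curves `y² = x³ + A x + B` with `max |A| |B| ≤ t ^ N` and all integral points `(x, y)` (of any
size) such that `x` and `y` have small digit sums in the base `t ≥ (4 s) ^ (2 N + 4)`. -/

namespace Pool.Agent.Results.MP_a1107e_nt.DigitsOfThePointOnly

/-- `X` is the difference of two natural numbers whose base `t` digit sums add up to at most `s`. -/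
def SmallDigits (t s : ℕ) (X : ℤ) : Prop :=
  ∃ U V : ℕ, X = U - V ∧ (Nat.digits t U).sum + (Nat.digits t V).sum ≤ s

/-- **The Hall-Lang conjecture for points with small digit sums.** Let `(4 s) ^ (2 N + 4) ≤ t` and
let `A, B` be any integers with `max |A| |B| ≤ t ^ N` (at most `N` digits in base `t`, or `t ^ N`)
and `4 A ^ 3 + 27 B ^ 2 ≠ 0`. For all integers `x, y` with `y ^ 2 = x ^ 3 + A x + B`, of any size,
each of which is a difference of two natural numbers with base `t` digit sums adding up to at most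
`s`, we have, with `m = max s (max |A| |B| ^ 26)`, `|x| ≤ m` and `y ^ 2 ≤ 3 m ^ 3`. -/
theorem result :
    ∀ t s N : ℕ, 1 ≤ t → (4 * s) ^ (2 * N + 4) ≤ t → ∀ A B : ℤ, max |A| |B| ≤ (t : ℤ) ^ N →
      4 * A ^ 3 + 27 * B ^ 2 ≠ 0 → ∀ x y : ℤ, SmallDigits t s x → SmallDigits t s y →
      y ^ 2 = x ^ 3 + A * x + B →
        |x| ≤ max (s : ℤ) (max |A| |B| ^ 26) ∧
        y ^ 2 ≤ 3 * max (s : ℤ) (max |A| |B| ^ 26) ^ 3 := by
  intro t s N ht hst A B hN hD x y hx hy h
  have h1 := J4H90.HL.long_bound hst ht hx hy hN hD h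
  refine ⟨h1, ?_⟩
  set H : ℤ := max |A| |B| with hH
  set M : ℤ := max (s : ℤ) (H ^ 26) with hM
  have hAH : |A| ≤ H := le_max_left _ _
  have hBH : |B| ≤ H := le_max_right _ _
  have hH1 : 1 ≤ H := by
    by_contra hc
    have h0 : H = 0 := le_antisymm (by omega) ((abs_nonneg A).trans hAH)
    rw [h0] at hAH hBH
    have hA0 : A = 0 := abs_nonpos_iff.1 hAH
    have hB0 : B = 0 := abs_nonpos_iff.1 hBH
    exact hD (by rw [hA0, hB0]; norm_num)
  have hHM : H ≤ M := (le_self_pow₀ hH1 (by norm_num)).trans (le_max_right _ _)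
  have hM1 : 1 ≤ M := hH1.trans hHM
  have h2 : y ^ 2 ≤ |x| ^ 3 + |A| * |x| + |B| := by
    rw [h, ← abs_pow, ← abs_mul]
    exact add_le_add (add_le_add (le_abs_self _) (le_abs_self _)) (le_abs_self _)
  have h3 : |x| ^ 3 ≤ M ^ 3 := pow_le_pow_left₀ (abs_nonneg x) h1 3
  have h4 : |A| * |x| ≤ M * M := mul_le_mul (hAH.trans hHM) h1 (abs_nonneg _) (by linarith)
  have h5 : M * M ≤ M ^ 3 := by
    calc M * M = M ^ 2 := by ring
      _ ≤ M ^ 3 := pow_le_pow_right₀ hM1 (by norm_num)
  have h6 : M ≤ M ^ 3 := le_self_pow₀ hM1 (by norm_num)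
  have h7 : |B| ≤ M := hBH.trans hHM
  linarith

end Pool.Agent.Results.MP_a1107e_nt.DigitsOfThePointOnly
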