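import Mathlib
import Pool.Agent.J4H90.HL.Dig

/-! # The Hall-Lang conjecture for quadruples with small digit sums in a common base

If the integers `A, B, x, y` with `y² = x³ + A x + B`, `4 A³ + 27 B² ≠ 0`, are differences of
natural numbers whose digit sums in some base `t` are small against the cube root of `t`, then
`max |x| |y| ≤ s (2 max |A| |B|) ^ 18`, `s` the bound for the digit sums. -/

namespace Pool.Agent.Results.MP_a1107e_nt.SmallDigitSums

/-- `X` is the difference of two natural numbers whose base `t` digit sums add up to at most `s`. -/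
def SmallDigits (t s : ℕ) (X : ℤ) : Prop :=
  ∃ U V : ℕ, X = U - V ∧ (Nat.digits t U).sum + (Nat.digits t V).sum ≤ s

/-- **The Hall-Lang conjecture for small digit sums.** Let `8 s ^ 3 + 2 ≤ t` and let `A, B, x, y` be
integers with `y ^ 2 = x ^ 3 + A x + B` and `4 A ^ 3 + 27 B ^ 2 ≠ 0`, each of which is a difference
of two natural numbers with base `t` digit sums adding up to at most `s`. Then
`max |x| |y| ≤ s (2 max |A| |B|) ^ 18`; in particular the Hall-Lang bound with the absolute constants
`K = 2 ^ 18`, `M = 19` holds if `s ≤ max |A| |B|`. There is no condition on the number of digits. -/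
theorem result : ∀ t s : ℕ, 8 * s ^ 3 + 2 ≤ t → ∀ A B x y : ℤ,
    SmallDigits t s A → SmallDigits t s B → SmallDigits t s x → SmallDigits t s y →
    4 * A ^ 3 + 27 * B ^ 2 ≠ 0 → y ^ 2 = x ^ 3 + A * x + B →
      max |x| |y| ≤ s * (2 * max |A| |B|) ^ 18 ∧
      ((s : ℤ) ≤ max |A| |B| → max |x| |y| ≤ 2 ^ 18 * max |A| |B| ^ 19) := by
  intro t s hst A B x y hA hB hx hy hD h
  have h1 : max |x| |y| ≤ s * (2 * max |A| |B|) ^ 18 :=
    J4H90.HL.digits_bound hst hA hB hx hy hD h
  refine ⟨h1, fun hs => h1.trans ?_⟩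
  have h2 : (0 : ℤ) ≤ max |A| |B| := le_max_of_le_left (abs_nonneg A)
  calc (s : ℤ) * (2 * max |A| |B|) ^ 18 ≤ max |A| |B| * (2 * max |A| |B|) ^ 18 :=
        mul_le_mul_of_nonneg_right hs (by positivity)
    _ = 2 ^ 18 * max |A| |B| ^ 19 := by ring

end Pool.Agent.Results.MP_a1107e_nt.SmallDigitSums
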